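import Pool.Agent.LibKB.Defs
import Pool.Agent.LibGMM.Api

/-!
THEOREM K, part B1a: the order function of the local ring `ℂ[a, b]_(a, b)`.
-/

set_option autoImplicit false

open Pool.Agent.LibGMM Pool.Agent.LibK

namespace Pool.Agent.LibKB

/-! ### The order of polynomials -/

theorem coe_ne {f : MvPolynomial (Fin 2) ℂ} (hf : f ≠ 0) :
    (f : MvPowerSeries (Fin 2) ℂ) ≠ 0 := by
  rwa [Ne, MvPolynomial.coe_eq_zero_iff]

theorem coe_ordP {f : MvPolynomial (Fin 2) ℂ} (hf : f ≠ 0) :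
    ((ordP f : ℕ) : ℕ∞) = (f : MvPowerSeries (Fin 2) ℂ).order :=
  MvPowerSeries.ne_zero_iff_order_finite.1 (coe_ne hf)

theorem ordP_mul {f g : MvPolynomial (Fin 2) ℂ} (hf : f ≠ 0) (hg : g ≠ 0) :
    ordP (f * g) = ordP f + ordP g := by
  have h : ((ordP (f * g) : ℕ) : ℕ∞) = ((ordP f + ordP g : ℕ) : ℕ∞) := by
    rw [coe_ordP (mul_ne_zero hf hg), MvPolynomial.coe_mul, MvPowerSeries.order_mul]
    push_cast
    rw [coe_ordP hf, coe_ordP hg]
  exact_mod_cast h

theorem le_ordP_iff {f : MvPolynomial (Fin 2) ℂ} (hf : f ≠ 0) (k : ℕ) :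
    k ≤ ordP f ↔ ∀ d : Fin 2 →₀ ℕ, d.degree < k → MvPolynomial.coeff d f = 0 := by
  constructor
  · intro h d hd
    rw [← MvPolynomial.coeff_coe]
    refine MvPowerSeries.coeff_of_lt_order ?_
    rw [← coe_ordP hf]
    exact_mod_cast lt_of_lt_of_le hd h
  · intro h
    have h1 : ((k : ℕ) : ℕ∞) ≤ (f : MvPowerSeries (Fin 2) ℂ).order := by
      refine MvPowerSeries.nat_le_order fun d hd => ?_
      rw [MvPolynomial.coeff_coe]
      exact h d hd
    rw [← coe_ordP hf] at h1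
    exact_mod_cast h1

theorem ordP_add {f g : MvPolynomial (Fin 2) ℂ} (hf : f ≠ 0) (hg : g ≠ 0) (hfg : f + g ≠ 0) :
    min (ordP f) (ordP g) ≤ ordP (f + g) := by
  rw [le_ordP_iff hfg]
  intro d hd
  rw [MvPolynomial.coeff_add, (le_ordP_iff hf _).1 le_rfl d (lt_of_lt_of_le hd (min_le_left _ _)),
    (le_ordP_iff hg _).1 le_rfl d (lt_of_lt_of_le hd (min_le_right _ _)), add_zero]

theorem ordP_eq_zero_iff {f : MvPolynomial (Fin 2) ℂ} (hf : f ≠ 0) :
    ordP f = 0 ↔ MvPolynomial.constantCoeff f ≠ 0 := by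
  have h := le_ordP_iff hf 1
  constructor
  · intro h0 hc
    have : 1 ≤ ordP f := h.2 (fun d hd => by
      have hd0 : d = 0 := by
        rw [← Finsupp.degree_eq_zero_iff]
        omega
      rw [hd0]
      exact hc)
    omega
  · intro hc
    by_contra hne
    exact hc (h.1 (by omega) 0 (by simp))

theorem ordP_X (i : Fin 2) : ordP (MvPolynomial.X i) = 1 := by
  have hX : (MvPolynomial.X i : MvPolynomial (Fin 2) ℂ) ≠ 0 := MvPolynomial.X_ne_zero i
  have h : ((ordP (MvPolynomial.X i) : ℕ) : ℕ∞) = ((1 : ℕ) : ℕ∞) := by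
    rw [coe_ordP hX, MvPolynomial.coe_X, MvPowerSeries.X,
      MvPowerSeries.order_monomial_of_ne_zero one_ne_zero]
    simp
  exact_mod_cast h

theorem ordP_C {c : ℂ} (hc : c ≠ 0) : ordP (MvPolynomial.C c) = 0 := by
  have hC : (MvPolynomial.C c : MvPolynomial (Fin 2) ℂ) ≠ 0 := by
    rwa [Ne, MvPolynomial.C_eq_zero]
  rw [ordP_eq_zero_iff hC]
  simpa using hc

/-! ### The order function -/

variable {L : Type} [Field L] [Algebra ℂ L]

variable {x y y' : Subalgebra ℂ L} {a b a' b' : L} {E E' ν : DVal L}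

theorem Coord.ev_ne (h : Coord x a b) {f : MvPolynomial (Fin 2) ℂ} (hf : f ≠ 0) :
    ev a b f ≠ 0 := fun h0 => hf (h.inj f h0)

theorem Coord.ev_inj (h : Coord x a b) {f g : MvPolynomial (Fin 2) ℂ} (hfg : ev a b f = ev a b g) :
    f = g := by
  have h1 : ev a b (f - g) = 0 := by rw [map_sub, hfg, sub_self]
  exact sub_eq_zero.1 (h.inj _ h1)

theorem Coord.mem_ev (h : Coord x a b) (f : MvPolynomial (Fin 2) ℂ) : ev a b f ∈ x := by
  rw [h.mem]
  exact ⟨f, 1, by simp, by simp⟩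

theorem ev_X0 (a b : L) : ev a b (MvPolynomial.X 0) = a := by simp [ev]

theorem ev_X1 (a b : L) : ev a b (MvPolynomial.X 1) = b := by simp [ev]

theorem Coord.ratio (h : Coord x a b) {f g f' g' : MvPolynomial (Fin 2) ℂ} (hf : f ≠ 0)
    (hg : g ≠ 0) (hf' : f' ≠ 0) (hg' : g' ≠ 0)
    (heq : ev a b f / ev a b g = ev a b f' / ev a b g') :
    (ordP f : ℤ) - ordP g = (ordP f' : ℤ) - ordP g' := by
  rw [div_eq_div_iff (h.ev_ne hg) (h.ev_ne hg'), ← map_mul, ← map_mul] at heq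
  have h1 := congrArg ordP (h.ev_inj heq)
  rw [ordP_mul hf hg', ordP_mul hf' hg] at h1
  omega

/-- numerator and denominator -/
theorem Coord.exists_frac (h : Coord x a b) {z : L} (hz : z ≠ 0) :
    ∃ p : MvPolynomial (Fin 2) ℂ × MvPolynomial (Fin 2) ℂ, p.1 ≠ 0 ∧ p.2 ≠ 0 ∧
      z = ev a b p.1 / ev a b p.2 := by
  obtain ⟨f, g, hg, hz'⟩ := h.gen z
  refine ⟨(f, g), ?_, hg, hz'⟩
  rintro rfl
  apply hz
  rw [hz', map_zero, zero_div]

open Classical in
/-- the order function -/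
noncomputable def Coord.ordF (h : Coord x a b) (z : L) : ℤ :=
  if hz : z = 0 then 0 else
    (ordP (Classical.choose (h.exists_frac hz)).1 : ℤ) -
      ordP (Classical.choose (h.exists_frac hz)).2

theorem Coord.ordF_div (h : Coord x a b) {f g : MvPolynomial (Fin 2) ℂ} (hf : f ≠ 0)
    (hg : g ≠ 0) : h.ordF (ev a b f / ev a b g) = (ordP f : ℤ) - ordP g := by
  have hz : ev a b f / ev a b g ≠ 0 := div_ne_zero (h.ev_ne hf) (h.ev_ne hg)
  unfold Coord.ordF
  rw [dif_neg hz]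
  obtain ⟨h1, h2, h3⟩ := Classical.choose_spec (h.exists_frac hz)
  exact h.ratio h1 h2 hf hg h3.symm

theorem Coord.ordF_ev (h : Coord x a b) {f : MvPolynomial (Fin 2) ℂ} (hf : f ≠ 0) :
    h.ordF (ev a b f) = ordP f := by
  have h1 := h.ordF_div hf (one_ne_zero (α := MvPolynomial (Fin 2) ℂ))
  have h2 : ordP (1 : MvPolynomial (Fin 2) ℂ) = 0 := by
    rw [← MvPolynomial.C_1]
    exact ordP_C one_ne_zero
  rwa [map_one, div_one, h2, Nat.cast_zero, sub_zero] at h1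

/-- the order function as a discrete valuation -/
noncomputable def Coord.ordD (h : Coord x a b) : DVal L where
  ord := h.ordF
  ord_zero := by unfold Coord.ordF; rw [dif_pos rfl]
  ord_mul := by
    intro z w hz hw
    obtain ⟨⟨f, g⟩, hf, hg, rfl⟩ := h.exists_frac hz
    obtain ⟨⟨f', g'⟩, hf', hg', rfl⟩ := h.exists_frac hw
    simp only at hf hg hf' hg' ⊢
    rw [div_mul_div_comm, ← map_mul, ← map_mul, h.ordF_div (mul_ne_zero hf hf')
      (mul_ne_zero hg hg'), h.ordF_div hf hg, h.ordF_div hf' hg', ordP_mul hf hf',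
      ordP_mul hg hg']
    push_cast
    ring
  ord_add := by
    intro z w hz hw hzw
    obtain ⟨⟨f, g⟩, hf, hg, rfl⟩ := h.exists_frac hz
    obtain ⟨⟨f', g'⟩, hf', hg', rfl⟩ := h.exists_frac hw
    simp only at hf hg hf' hg' hzw ⊢
    have h1 : ev a b f / ev a b g + ev a b f' / ev a b g' =
        ev a b (f * g' + g * f') / ev a b (g * g') := by
      rw [div_add_div _ _ (h.ev_ne hg) (h.ev_ne hg')]
      simp only [map_add, map_mul]
    rw [h1] at hzw ⊢
    have h2 : f * g' + g * f' ≠ 0 := by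
      intro h0
      rw [h0, map_zero, zero_div] at hzw
      exact hzw rfl
    rw [h.ordF_div h2 (mul_ne_zero hg hg'), h.ordF_div hf hg, h.ordF_div hf' hg',
      ordP_mul hg hg']
    have h3 := ordP_add (mul_ne_zero hf hg') (mul_ne_zero hg hf') h2
    rw [ordP_mul hf hg', ordP_mul hg hf'] at h3
    push_cast
    have h4 : (min ((ordP f : ℤ) + ordP g') ((ordP g : ℤ) + ordP f') : ℤ) ≤
        (ordP (f * g' + g * f') : ℤ) := by exact_mod_cast h3
    rcases min_le_iff.1 h4 with h5 | h5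
    · exact (min_le_left _ _).trans (by omega)
    · exact (min_le_right _ _).trans (by omega)
  ord_const := by
    intro c
    by_cases hc : c = 0
    · subst hc
      rw [map_zero]
      unfold Coord.ordF
      rw [dif_pos rfl]
    · have h1 : algebraMap ℂ L c = ev a b (MvPolynomial.C c) := by
        simp [ev, MvPolynomial.aeval_C]
      rw [h1, h.ordF_ev (by rwa [Ne, MvPolynomial.C_eq_zero]), ordP_C hc]
      rfl
  exists_ord_one := by
    refine ⟨a, ?_⟩
    have h1 := h.ordF_ev (MvPolynomial.X_ne_zero (R := ℂ) (0 : Fin 2))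
    rw [ev_X0, ordP_X] at h1
    exact h1

theorem Coord.ordD_ev (h : Coord x a b) {f : MvPolynomial (Fin 2) ℂ} (hf : f ≠ 0) :
    h.ordD.ord (ev a b f) = ordP f := h.ordF_ev hf

theorem Coord.exists_ord (h : Coord x a b) : ∃ E, IsOrd x E :=
  ⟨h.ordD, a, b, h, fun _ hf => h.ordD_ev hf⟩

/-- a valuation which is nonnegative on `x` and positive at the coordinates is at least the order
function -/
theorem Coord.ordP_le (h : Coord x a b) (hE : ∀ z ∈ x, 0 ≤ E.ord z) (ha : 1 ≤ E.ord a)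
    (hb : 1 ≤ E.ord b) {f : MvPolynomial (Fin 2) ℂ} (hf : f ≠ 0) :
    (ordP f : ℤ) ≤ E.ord (ev a b f) := by
  have ha0 : a ≠ 0 := by rintro rfl; rw [E.ord_zero] at ha; omega
  have hb0 : b ≠ 0 := by rintro rfl; rw [E.ord_zero] at hb; omega
  have hterm : ∀ d ∈ f.support, (ordP f : ℤ) ≤ E.ord (ev a b (MvPolynomial.monomial d (f.coeff d))) := by
    intro d hd
    have hc : f.coeff d ≠ 0 := MvPolynomial.mem_support_iff.1 hd
    have hdeg : ordP f ≤ d.degree := by
      by_contra hlt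
      exact hc ((le_ordP_iff hf _).1 le_rfl d (by omega))
    have h1 : ev a b (MvPolynomial.monomial d (f.coeff d)) =
        algebraMap ℂ L (f.coeff d) * (a ^ d 0 * b ^ d 1) := by
      simp [ev, MvPolynomial.aeval_monomial, Finsupp.prod_fintype, Fin.prod_univ_two]
    have hc' : algebraMap ℂ L (f.coeff d) ≠ 0 := by
      rw [Ne, FaithfulSMul.algebraMap_eq_zero_iff]
      exact hc
    have hdeg2 : d.degree = d 0 + d 1 := by
      rw [Finsupp.degree_eq_sum, Fin.sum_univ_two]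
    rw [h1, E.ord_mul' hc' (mul_ne_zero (pow_ne_zero _ ha0) (pow_ne_zero _ hb0)), E.ord_const,
      E.ord_mul' (pow_ne_zero _ ha0) (pow_ne_zero _ hb0), E.ord_pow, E.ord_pow, zero_add]
    have h2 : (ordP f : ℤ) ≤ (d 0 : ℤ) + d 1 := by
      rw [hdeg2] at hdeg
      exact_mod_cast hdeg
    nlinarith
  have hsum : ev a b f = ∑ d ∈ f.support, ev a b (MvPolynomial.monomial d (f.coeff d)) := by
    conv_lhs => rw [f.as_sum, map_sum]
  have hgen : ∀ s : Finset (Fin 2 →₀ ℕ), s ⊆ f.support →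
      (∑ d ∈ s, ev a b (MvPolynomial.monomial d (f.coeff d)) = 0 ∨
        (ordP f : ℤ) ≤ E.ord (∑ d ∈ s, ev a b (MvPolynomial.monomial d (f.coeff d)))) := by
    classical
    intro s
    induction s using Finset.induction_on with
    | empty => intro _; left; simp
    | insert d s hd ih =>
      intro hs
      rw [Finset.sum_insert hd]
      exact E.ord_add_ge (Or.inr (hterm d (hs (Finset.mem_insert_self d s))))
        (ih fun e he => hs (Finset.mem_insert_of_mem he))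
  rcases hgen f.support subset_rfl with h1 | h1
  · exact absurd (hsum.trans h1) (h.ev_ne hf)
  · rwa [← hsum] at h1

theorem Coord.pos_of (h : Coord x a b) (hE : ∀ z ∈ x, 0 ≤ E.ord z)
    (hE' : ∀ z ∈ x, z ≠ 0 → E.ord z = 0 → z⁻¹ ∈ x) : 1 ≤ E.ord a ∧ 1 ≤ E.ord b := by
  have key : ∀ i : Fin 2, 1 ≤ E.ord (ev a b (MvPolynomial.X i)) := by
    intro i
    have h0 := hE _ (h.mem_ev (MvPolynomial.X i))
    by_contra hlt
    have h1 : E.ord (ev a b (MvPolynomial.X i)) = 0 := by omega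
    have h2 := hE' _ (h.mem_ev _) (h.ev_ne (MvPolynomial.X_ne_zero i)) h1
    obtain ⟨f, g, hg, hfg⟩ := (h.mem _).1 h2
    have hg0 : g ≠ 0 := by
      rintro rfl
      exact hg (map_zero _)
    have h3 : ev a b (MvPolynomial.X i * f) = ev a b g := by
      rw [map_mul]
      rw [inv_eq_iff_eq_inv, inv_div] at hfg
      rw [hfg, div_mul_cancel₀]
      intro hf0
      rw [hf0, div_zero] at hfg
      exact h.ev_ne (MvPolynomial.X_ne_zero i) hfg
    have h4 := congrArg MvPolynomial.constantCoeff (h.ev_inj h3)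
    rw [map_mul, MvPolynomial.constantCoeff_X, zero_mul] at h4
    exact hg h4.symm
  have h0 := key 0
  have h1 := key 1
  rw [ev_X0] at h0
  rw [ev_X1] at h1
  exact ⟨h0, h1⟩

theorem Coord.ordD_mem (h : Coord x a b) {z : L} (hz : z ∈ x) : 0 ≤ h.ordD.ord z := by
  obtain ⟨f, g, hg, rfl⟩ := (h.mem z).1 hz
  have hg0 : g ≠ 0 := by
    rintro rfl
    exact hg (map_zero _)
  by_cases hf : f = 0
  · rw [hf, map_zero, zero_div, DVal.ord_zero]
  · rw [DVal.ord_div _ (h.ev_ne hf) (h.ev_ne hg0), h.ordD_ev hf, h.ordD_ev hg0,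
      (ordP_eq_zero_iff hg0).2 hg]
    simp

theorem Coord.ordD_inv (h : Coord x a b) {z : L} (hz : z ∈ x) (h0 : z ≠ 0)
    (h1 : h.ordD.ord z = 0) : z⁻¹ ∈ x := by
  obtain ⟨f, g, hg, rfl⟩ := (h.mem z).1 hz
  have hg0 : g ≠ 0 := by
    rintro rfl
    exact hg (map_zero _)
  have hf : f ≠ 0 := by
    rintro rfl
    rw [map_zero, zero_div] at h0
    exact h0 rfl
  rw [DVal.ord_div _ (h.ev_ne hf) (h.ev_ne hg0), h.ordD_ev hf, h.ordD_ev hg0,
    (ordP_eq_zero_iff hg0).2 hg] at h1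
  refine (h.mem _).2 ⟨g, f, (ordP_eq_zero_iff hf).1 (by omega), ?_⟩
  rw [inv_div]

/-- the order functions of two coordinate systems agree -/
theorem Coord.ordD_le (h : Coord x a b) (h' : Coord x a' b') {f : MvPolynomial (Fin 2) ℂ}
    (hf : f ≠ 0) : h'.ordD.ord (ev a b f) = ordP f := by
  -- `h'.ordD ≥ h.ordD` on `x`
  have key : ∀ {a b a' b' : L} (h : Coord x a b) (h' : Coord x a' b') (z : L), z ∈ x → z ≠ 0 →
      h.ordD.ord z ≤ h'.ordD.ord z := by
    intro a b a' b' h h' z hz hz0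
    obtain ⟨f, g, hg, rfl⟩ := (h.mem z).1 hz
    have hg0 : g ≠ 0 := by
      rintro rfl
      exact hg (map_zero _)
    have hf : f ≠ 0 := by
      rintro rfl
      rw [map_zero, zero_div] at hz0
      exact hz0 rfl
    have hpos := h.pos_of (E := h'.ordD) (fun z hz => h'.ordD_mem hz)
      (fun z hz h0 h1 => h'.ordD_inv hz h0 h1)
    have h1 := h.ordP_le (E := h'.ordD) (fun z hz => h'.ordD_mem hz) hpos.1 hpos.2 hf
    have h2 : h'.ordD.ord (ev a b g) = 0 := by
      have h3 : 0 ≤ h'.ordD.ord (ev a b g) := h'.ordD_mem (h.mem_ev g)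
      have h4 : (ev a b g)⁻¹ ∈ x := h.ordD_inv (h.mem_ev g) (h.ev_ne hg0)
        (by rw [h.ordD_ev hg0, (ordP_eq_zero_iff hg0).2 hg]; rfl)
      have h5 : 0 ≤ h'.ordD.ord (ev a b g)⁻¹ := h'.ordD_mem h4
      rw [DVal.ord_inv] at h5
      omega
    rw [DVal.ord_div _ (h.ev_ne hf) (h.ev_ne hg0), DVal.ord_div _ (h.ev_ne hf) (h.ev_ne hg0),
      h.ordD_ev hf, h.ordD_ev hg0, (ordP_eq_zero_iff hg0).2 hg, h2]
    omega
  refine le_antisymm ?_ ?_
  · rw [← h.ordD_ev hf]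
    exact key h' h _ (h.mem_ev f) (h.ev_ne hf)
  · rw [← h.ordD_ev hf]
    exact key h h' _ (h.mem_ev f) (h.ev_ne hf)

theorem dval_ext {E E' : DVal L} (h : ∀ z, E.ord z = E'.ord z) : E = E' :=
  DVal.ext_ring fun z hz => by rw [← h z]; exact hz

theorem IsOrd.eq_ordD (hE : IsOrd x E) (h : Coord x a b) : E = h.ordD := by
  obtain ⟨a₀, b₀, h₀, hE₀⟩ := hE
  refine dval_ext fun z => ?_
  by_cases hz : z = 0
  · rw [hz, DVal.ord_zero, DVal.ord_zero]
  obtain ⟨⟨f, g⟩, hf, hg, rfl⟩ := h₀.exists_frac hz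
  simp only at hf hg ⊢
  rw [DVal.ord_div _ (h₀.ev_ne hf) (h₀.ev_ne hg), DVal.ord_div _ (h₀.ev_ne hf) (h₀.ev_ne hg),
    hE₀ f hf, hE₀ g hg, h₀.ordD_le h hf, h₀.ordD_le h hg]

theorem IsOrd.ord_ev (hE : IsOrd x E) (h : Coord x a b) {f : MvPolynomial (Fin 2) ℂ}
    (hf : f ≠ 0) : E.ord (ev a b f) = ordP f := by
  rw [hE.eq_ordD h]
  exact h.ordD_ev hf

theorem IsOrd.unique (hE : IsOrd x E) (hE' : IsOrd x E') : E = E' := by
  obtain ⟨a, b, h, -⟩ := id hE
  rw [hE.eq_ordD h, hE'.eq_ordD h]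

theorem IsOrd.le_ring (hE : IsOrd x E) : x ≤ E.ring := by
  obtain ⟨a, b, h, -⟩ := id hE
  rw [hE.eq_ordD h]
  intro z hz
  exact h.ordD_mem hz

theorem IsOrd.inv_mem (hE : IsOrd x E) {f : L} (hf : f ∈ x) (h0 : f ≠ 0) (h : E.ord f = 0) :
    f⁻¹ ∈ x := by
  obtain ⟨a, b, hc, -⟩ := id hE
  rw [hE.eq_ordD hc] at h
  exact hc.ordD_inv hf h0 h

theorem IsOrd.notMem_ess (hE : IsOrd x E) : E ∉ Ess x := by
  rintro ⟨-, hE2⟩
  obtain ⟨a, b, h, -⟩ := id hE
  have ha : a ≠ 0 := by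
    have := h.ev_ne (MvPolynomial.X_ne_zero (R := ℂ) (0 : Fin 2))
    rwa [ev_X0] at this
  have hb : b ≠ 0 := by
    have := h.ev_ne (MvPolynomial.X_ne_zero (R := ℂ) (1 : Fin 2))
    rwa [ev_X1] at this
  have hEa : E.ord a = 1 := by
    have := hE.ord_ev h (MvPolynomial.X_ne_zero (R := ℂ) (0 : Fin 2))
    rwa [ev_X0, ordP_X] at this
  have hEb : E.ord b = 1 := by
    have := hE.ord_ev h (MvPolynomial.X_ne_zero (R := ℂ) (1 : Fin 2))
    rwa [ev_X1, ordP_X] at this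
  obtain ⟨u, hu, v, hv, hv0, hEv, huv⟩ := hE2 (a / b) (by rw [E.ord_div ha hb]; omega)
  have hab : a / b ∈ x := by
    rw [huv, div_eq_mul_inv]
    exact x.mul_mem hu (hE.inv_mem hv hv0 hEv)
  obtain ⟨f, g, hg, hfg⟩ := (h.mem _).1 hab
  have hg0 : g ≠ 0 := by
    rintro rfl
    exact hg (map_zero _)
  have h3 : ev a b (MvPolynomial.X 0 * g) = ev a b (MvPolynomial.X 1 * f) := by
    rw [map_mul, map_mul, ev_X0, ev_X1]
    rw [div_eq_div_iff hb (h.ev_ne hg0)] at hfg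
    rw [hfg, mul_comm]
  have h4 := congrArg (MvPolynomial.coeff (Finsupp.single 0 1)) (h.ev_inj h3)
  rw [MvPolynomial.coeff_X_mul', MvPolynomial.coeff_X_mul'] at h4
  simp at h4
  exact hg h4

end Pool.Agent.LibKB
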